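import Pool.Agent.H86.IR.Targets2

/-!
# Module EUL of the board ir_modules (MP_c11efe_an): concavity of `zet`
-/

set_option autoImplicit false

open Topology Filter

namespace Pool.Agent.H21.IR

open Pool.Agent.H86.IR

theorem conc_log (s : ℝ) (hs : -1 < s) :
    ConcaveOn ℝ (Set.Icc (0 : ℝ) 1) fun x => Real.log (1 + s * x) := by
  have hpos : ∀ x ∈ Set.Icc (0 : ℝ) 1, 0 < 1 + s * x := by
    intro x hx
    rcases le_or_gt 0 s with h | h
    · have := mul_nonneg h hx.1
      linarith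
    · have h1 : s * 1 ≤ s * x := mul_le_mul_of_nonpos_left hx.2 h.le
      linarith
  refine ⟨convex_Icc 0 1, fun x hx y hy a b ha hb hab => ?_⟩
  have h1 := strictConcaveOn_log_Ioi.concaveOn.2 (hpos x hx) (hpos y hy) ha hb hab
  simp only [smul_eq_mul] at h1 ⊢
  have e : 1 + s * (a * x + b * y) = a * (1 + s * x) + b * (1 + s * y) := by
    linear_combination (-1 : ℝ) * hab
  rw [e]
  exact h1

/-- the partial sums -/
noncomputable def FF (n : ℕ) (x : ℝ) : ℝ := Real.log (1 + 1 * x) +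
  ∑ j ∈ Finset.range n, (Real.log (1 + (1 / ((j : ℝ) + 2)) * x) +
    Real.log (1 + (-(1 / ((j : ℝ) + 2))) * x))

theorem conc_FF (n : ℕ) : ConcaveOn ℝ (Set.Icc (0 : ℝ) 1) (FF n) := by
  have h0 : ∀ j : ℕ, (0 : ℝ) < 1 / ((j : ℝ) + 2) ∧ 1 / ((j : ℝ) + 2) < 1 := by
    intro j
    have : (0 : ℝ) ≤ j := j.cast_nonneg
    refine ⟨by positivity, ?_⟩
    rw [div_lt_one (by positivity)]
    linarith
  have h1 : ConcaveOn ℝ (Set.Icc (0 : ℝ) 1) fun x => ∑ j ∈ Finset.range n,
      (Real.log (1 + (1 / ((j : ℝ) + 2)) * x) + Real.log (1 + (-(1 / ((j : ℝ) + 2))) * x)) := by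
    induction n with
    | zero =>
      simp only [Finset.range_zero, Finset.sum_empty]
      exact concaveOn_const 0 (convex_Icc 0 1)
    | succ n ih =>
      simp only [Finset.sum_range_succ]
      exact ih.add ((conc_log _ (by linarith [(h0 n).1])).add
        (conc_log _ (by linarith [(h0 n).2])))
  exact (conc_log 1 (by norm_num)).add h1

/-- the exponential of the partial sums -/
theorem exp_FF (n : ℕ) {x : ℝ} (hx : x ∈ Set.Icc (0 : ℝ) 1) :
    Real.exp (FF n x) = (1 + x) * ∏ j ∈ Finset.range n, (1 - x ^ 2 / ((j : ℝ) + 2) ^ 2) := by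
  have hj : ∀ j : ℕ, 0 < 1 + (1 / ((j : ℝ) + 2)) * x ∧ 0 < 1 + (-(1 / ((j : ℝ) + 2))) * x := by
    intro j
    have h1 : (0 : ℝ) ≤ j := j.cast_nonneg
    have h2 : (0 : ℝ) < 1 / ((j : ℝ) + 2) := by positivity
    have h3 : 1 / ((j : ℝ) + 2) < 1 := by
      rw [div_lt_one (by positivity)]
      linarith
    have h4 := mul_nonneg h2.le hx.1
    refine ⟨by linarith, ?_⟩
    nlinarith [hx.1, hx.2]
  unfold FF
  rw [Real.exp_add, Real.exp_log (by linarith [hx.1]), Real.exp_sum, one_mul]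
  congr 1
  refine Finset.prod_congr rfl fun j _ => ?_
  rw [Real.exp_add, Real.exp_log (hj j).1, Real.exp_log (hj j).2]
  have h1 : (0 : ℝ) ≤ j := j.cast_nonneg
  have h2 : ((j : ℝ) + 2) ≠ 0 := by positivity
  field_simp
  ring

/-- the limit -/
noncomputable def Xi (x : ℝ) : ℝ := if x = 0 ∨ x = 1 then 0 else
  Real.log (Real.sin (Real.pi * x) / (Real.pi * x * (1 - x)))

theorem tend_FF {x : ℝ} (hx : x ∈ Set.Icc (0 : ℝ) 1) :
    Tendsto (fun n => FF n x) atTop (𝓝 (Xi x)) := by
  have hlog : ∀ n, FF n x = Real.log (Real.exp (FF n x)) := fun n => (Real.log_exp _).symm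
  rcases eq_or_ne x 0 with h0 | h0
  · subst h0
    have h1 : ∀ n, FF n 0 = 0 := by
      intro n
      unfold FF
      simp
    simp only [h1, Xi, true_or, if_true]
    exact tendsto_const_nhds
  rcases eq_or_ne x 1 with h1 | h1
  · subst h1
    have h2 : ∀ n : ℕ, Real.exp (FF n 1) = ((n : ℝ) + 2) / ((n : ℝ) + 1) := by
      intro n
      rw [exp_FF n (by constructor <;> norm_num)]
      induction n with
      | zero => norm_num
      | succ n ih =>
        rw [Finset.prod_range_succ, ← mul_assoc, ih]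
        have h3 : (0 : ℝ) ≤ n := n.cast_nonneg
        have h4 : ((n : ℝ) + 1) ≠ 0 := by positivity
        have h5 : ((n : ℝ) + 2) ≠ 0 := by positivity
        push_cast
        have h6 : ((n : ℝ) + 1 + 1) ≠ 0 := by positivity
        field_simp
        ring
    have h3 : Tendsto (fun n : ℕ => ((n : ℝ) + 2) / ((n : ℝ) + 1)) atTop (𝓝 1) := by
      have h4 : Tendsto (fun n : ℕ => 1 + 1 / ((n : ℝ) + 1)) atTop (𝓝 (1 + 0)) :=
        tendsto_const_nhds.add tendsto_one_div_add_atTop_nhds_zero_nat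
      rw [add_zero] at h4
      refine h4.congr fun n => ?_
      have h3 : (0 : ℝ) ≤ n := n.cast_nonneg
      have h5 : ((n : ℝ) + 1) ≠ 0 := by positivity
      field_simp
      ring
    have h4 : Tendsto (fun n : ℕ => Real.log (((n : ℝ) + 2) / ((n : ℝ) + 1))) atTop
        (𝓝 (Real.log 1)) :=
      (Real.continuousAt_log one_ne_zero).tendsto.comp h3
    have h5 : Xi 1 = Real.log 1 := by
      unfold Xi
      rw [if_pos (Or.inr rfl), Real.log_one]
    rw [h5]
    refine h4.congr fun n => ?_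
    rw [hlog n, h2 n]
  have hx0 : 0 < x := lt_of_le_of_ne hx.1 (Ne.symm h0)
  have hx1 : x < 1 := lt_of_le_of_ne hx.2 h1
  have hsin : 0 < Real.sin (Real.pi * x) := by
    apply Real.sin_pos_of_pos_of_lt_pi (by positivity)
    nlinarith [Real.pi_pos]
  have hden : 0 < Real.pi * x * (1 - x) := by
    have := Real.pi_pos
    have h2 : 0 < 1 - x := by linarith
    positivity
  have h2 := (Real.tendsto_euler_sin_prod x).comp (tendsto_add_atTop_nat 1)
  have h3 : Tendsto (fun n => Real.exp (FF n x)) atTop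
      (𝓝 (Real.sin (Real.pi * x) / (Real.pi * x * (1 - x)))) := by
    have h4 := h2.div_const (Real.pi * x * (1 - x))
    refine h4.congr fun n => ?_
    rw [exp_FF n hx]
    simp only [Function.comp_apply]
    rw [Finset.prod_range_succ', div_eq_iff hden.ne']
    have h5 : ∏ k ∈ Finset.range n, (1 - x ^ 2 / (((k + 1 : ℕ) : ℝ) + 1) ^ 2) =
        ∏ k ∈ Finset.range n, (1 - x ^ 2 / ((k : ℝ) + 2) ^ 2) := by
      refine Finset.prod_congr rfl fun k _ => ?_
      push_cast
      congr 3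
      ring
    rw [h5]
    push_cast
    ring
  have h4 := (Real.continuousAt_log (div_pos hsin hden).ne').tendsto.comp h3
  unfold Xi
  rw [if_neg (by push Not; exact ⟨h0, h1⟩)]
  refine h4.congr fun n => ?_
  simp only [Function.comp_apply, Real.log_exp]

theorem conc_Xi : ConcaveOn ℝ (Set.Icc (0 : ℝ) 1) Xi := by
  refine ⟨convex_Icc 0 1, fun x hx y hy a b ha hb hab => ?_⟩
  have hz : a • x + b • y ∈ Set.Icc (0 : ℝ) 1 := convex_Icc (0 : ℝ) 1 hx hy ha hb hab
  exact le_of_tendsto_of_tendsto' (((tend_FF hx).const_smul a).add ((tend_FF hy).const_smul b))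
    (tend_FF hz) fun n => (conc_FF n).2 hx hy ha hb hab

theorem zet_eq {t : ℝ} (ht : t ∈ Set.Icc 0 (2 * Real.pi)) :
    zet t = Xi (t / (2 * Real.pi)) - Real.log (2 * Real.pi) := by
  have hpi := Real.pi_pos
  unfold zet Xi
  rcases eq_or_ne t 0 with h0 | h0
  · rw [if_pos (Or.inl h0), if_pos (Or.inl (by rw [h0, zero_div]))]
    ring
  rcases eq_or_ne t (2 * Real.pi) with h1 | h1
  · rw [if_pos (Or.inr h1), if_pos (Or.inr (by rw [h1, div_self (by positivity)]))]
    ring
  have h0' : t / (2 * Real.pi) ≠ 0 := div_ne_zero h0 (by positivity)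
  have h1' : t / (2 * Real.pi) ≠ 1 := by
    rw [Ne, div_eq_one_iff_eq (by positivity)]
    exact h1
  rw [if_neg (by push Not; exact ⟨h0, h1⟩), if_neg (by push Not; exact ⟨h0', h1'⟩)]
  have hx0 : 0 < t := lt_of_le_of_ne ht.1 (Ne.symm h0)
  have hx1 : t < 2 * Real.pi := lt_of_le_of_ne ht.2 h1
  have hs : 0 < Real.sin (t / 2) := Real.sin_pos_of_pos_of_lt_pi (by positivity) (by linarith)
  have e1 : Real.pi * (t / (2 * Real.pi)) = t / 2 := by
    field_simp
  rw [e1, ← Real.log_div]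
  · congr 1
    have h2 : 2 * Real.pi - t ≠ 0 := by linarith
    have h3 : 1 - t / (2 * Real.pi) = (2 * Real.pi - t) / (2 * Real.pi) := by
      field_simp
    rw [h3]
    field_simp
  · refine (div_pos hs (mul_pos (by positivity) ?_)).ne'
    rw [sub_pos, div_lt_one (by positivity)]
    exact hx1
  · positivity

theorem eul : T_EUL := by
  have hpi := Real.pi_pos
  refine ⟨convex_Icc 0 _, fun x hx y hy a b ha hb hab => ?_⟩
  have hz : a • x + b • y ∈ Set.Icc 0 (2 * Real.pi) :=
    convex_Icc (0 : ℝ) (2 * Real.pi) hx hy ha hb hab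
  rw [zet_eq hx, zet_eq hy, zet_eq hz]
  have hm : ∀ u ∈ Set.Icc 0 (2 * Real.pi), u / (2 * Real.pi) ∈ Set.Icc (0 : ℝ) 1 := by
    intro u hu
    refine ⟨div_nonneg hu.1 (by positivity), ?_⟩
    rw [div_le_one (by positivity)]
    exact hu.2
  have h1 := conc_Xi.2 (hm x hx) (hm y hy) ha hb hab
  simp only [smul_eq_mul] at h1 ⊢
  have e : (a * x + b * y) / (2 * Real.pi) = a * (x / (2 * Real.pi)) + b * (y / (2 * Real.pi)) := by
    ring
  rw [e]
  have e2 : a * Real.log (2 * Real.pi) + b * Real.log (2 * Real.pi) = Real.log (2 * Real.pi) := by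
    rw [← add_mul, hab, one_mul]
  linarith

end Pool.Agent.H21.IR
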