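import Pool.Agent.H86.IR.Targets2

/-!
# Module GIR of the board ir_modules (MP_c11efe_an): monotonicity of the inner radius
-/

set_option autoImplicit false

open Complex Topology Filter InnerProductSpace
open scoped OnePoint

namespace Pool.Agent.H21.IR

open Pool.Agent.H86.IR

/-- the inverse of `inv1` -/
noncomputable def SS (p : OnePoint ℂ) : ℂ := Option.elim (p : Option ℂ) 0 fun z : ℂ => z⁻¹

theorem SS_infty : SS ∞ = 0 := rfl

theorem SS_coe (z : ℂ) : SS (z : OnePoint ℂ) = z⁻¹ := rfl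

theorem inv1_zero : inv1 0 = ∞ := if_pos rfl

theorem inv1_ne {w : ℂ} (hw : w ≠ 0) : inv1 w = ((w⁻¹ : ℂ) : OnePoint ℂ) := if_neg hw

theorem tend_SS : Tendsto SS (𝓝 ∞) (𝓝 0) := by
  rw [OnePoint.tendsto_nhds_infty']
  refine ⟨?_, ?_⟩
  · rw [tendsto_pure_left]
    intro s hs
    rw [SS_infty]
    exact mem_of_mem_nhds hs
  · rw [Filter.coclosedCompact_eq_cocompact, ← Metric.cobounded_eq_cocompact]
    exact tendsto_inv₀_cobounded (α := ℂ)

theorem tend_inv1 : Tendsto inv1 (𝓝 0) (𝓝 ∞) := by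
  rw [← pure_sup_nhdsNE, tendsto_sup]
  refine ⟨?_, ?_⟩
  · rw [tendsto_pure_left]
    intro s hs
    rw [inv1_zero]
    exact mem_of_mem_nhds hs
  · have h1 : Tendsto (fun w : ℂ => ((w⁻¹ : ℂ) : OnePoint ℂ)) (𝓝[≠] 0) (𝓝 ∞) := by
      have h2 : Tendsto (fun z : ℂ => (z : OnePoint ℂ)) (Bornology.cobounded ℂ) (𝓝 ∞) := by
        rw [Metric.cobounded_eq_cocompact, ← Filter.coclosedCompact_eq_cocompact]
        exact OnePoint.tendsto_coe_infty
      exact h2.comp tendsto_inv₀_nhdsNE_zero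
    refine h1.congr' ?_
    filter_upwards [self_mem_nhdsWithin] with w hw
    exact (inv1_ne hw).symm

theorem ev_SS : ∀ᶠ p in 𝓝 (∞ : OnePoint ℂ), inv1 (SS p) = p := by
  have h : ∀ᶠ p in 𝓝 (∞ : OnePoint ℂ), p ≠ ((0 : ℂ) : OnePoint ℂ) :=
    isOpen_ne.mem_nhds (OnePoint.infty_ne_coe _)
  filter_upwards [h] with p hp
  induction p using OnePoint.rec with
  | infty => exact inv1_zero
  | coe z =>
    have hz : z ≠ 0 := fun h => hp (by rw [h])
    rw [SS_coe, inv1_ne (inv_ne_zero hz), inv_inv]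

theorem map_coe (z : ℂ) : map (fun w : ℂ => (w : OnePoint ℂ)) (𝓝 z) = 𝓝 (z : OnePoint ℂ) :=
  OnePoint.isOpenEmbedding_coe.map_nhds_eq z

theorem harm_cont {u : OnePoint ℂ → ℝ} {q : OnePoint ℂ} (h : HarmS u q) : ContinuousAt u q := by
  rcases h with ⟨z, rfl, hz⟩ | ⟨rfl, hz⟩
  · have h1 : ContinuousAt (fun w : ℂ => u (w : OnePoint ℂ)) z := hz.1.continuousAt
    exact OnePoint.isOpenEmbedding_coe.continuousAt_iff.1 h1
  · have h1 : ContinuousAt (fun w : ℂ => u (inv1 w)) 0 := hz.1.continuousAt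
    have h2 : Tendsto (fun p => u (inv1 (SS p))) (𝓝 ∞) (𝓝 (u ∞)) := by
      have h3 := h1.tendsto
      rw [inv1_zero] at h3
      exact h3.comp tend_SS
    exact h2.congr' (ev_SS.mono fun p hp => by rw [hp])

theorem harm_min (hMPL : T_MPL) {u : OnePoint ℂ → ℝ} {q : OnePoint ℂ} (h : HarmS u q)
    (hq : ∀ᶠ p in 𝓝 q, u q ≤ u p) : ∀ᶠ p in 𝓝 q, u p = u q := by
  rcases h with ⟨z, rfl, hz⟩ | ⟨rfl, hz⟩
  · rw [← map_coe, eventually_map] at hq ⊢
    exact hMPL _ z hz hq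
  · have h1 : ∀ᶠ w in 𝓝 (0 : ℂ), u (inv1 0) ≤ u (inv1 w) := by
      rw [inv1_zero]
      exact tend_inv1.eventually hq
    have h2 := tend_SS.eventually (hMPL _ 0 hz h1)
    filter_upwards [h2, ev_SS] with p hp hp'
    rw [hp', inv1_zero] at hp
    exact hp

/-- the minimum principle on the sphere -/
theorem min_univ (hMPL : T_MPL) {U : Set (OnePoint ℂ)} (hU : IsOpen U) {u : OnePoint ℂ → ℝ}
    (hu : ∀ q ∈ U, HarmS u q) {q₀ : OnePoint ℂ} (hq₀ : q₀ ∈ U)
    (hK : IsClosed {q | q ∈ U ∧ u q ≤ u q₀}) : U = Set.univ := by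
  have hcont : ContinuousOn u {q | q ∈ U ∧ u q ≤ u q₀} :=
    fun q hq => (harm_cont (hu q hq.1)).continuousWithinAt
  obtain ⟨q₁, hq₁, hmin⟩ := hK.isCompact.exists_isMinOn ⟨q₀, hq₀, le_rfl⟩ hcont
  have hall : ∀ p ∈ U, u q₁ ≤ u p := by
    intro p hp
    rcases le_total (u p) (u q₀) with h | h
    · exact hmin ⟨hp, h⟩
    · exact hq₁.2.trans h
  have hZ : IsClopen {q | q ∈ U ∧ u q = u q₁} := by
    constructor
    · rw [← closure_subset_iff_isClosed]
      intro q hq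
      have h1 : q ∈ {q | q ∈ U ∧ u q ≤ u q₀} := by
        have h2 : {q | q ∈ U ∧ u q = u q₁} ⊆ {q | q ∈ U ∧ u q ≤ u q₀} :=
          fun p hp => ⟨hp.1, hp.2.le.trans hq₁.2⟩
        exact hK.closure_subset_iff.2 h2 hq
      refine ⟨h1.1, ?_⟩
      have h3 : Tendsto u (𝓝[{q | q ∈ U ∧ u q = u q₁}] q) (𝓝 (u q)) :=
        (harm_cont (hu q h1.1)).tendsto.mono_left nhdsWithin_le_nhds
      have h4 : Tendsto u (𝓝[{q | q ∈ U ∧ u q = u q₁}] q) (𝓝 (u q₁)) := by
        refine tendsto_const_nhds.congr' ?_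
        filter_upwards [self_mem_nhdsWithin] with p hp
        exact hp.2.symm
      have : (𝓝[{q | q ∈ U ∧ u q = u q₁}] q).NeBot := mem_closure_iff_nhdsWithin_neBot.1 hq
      exact tendsto_nhds_unique h3 h4
    · rw [isOpen_iff_mem_nhds]
      rintro q ⟨hqU, hq⟩
      have h1 : ∀ᶠ p in 𝓝 q, u q ≤ u p := by
        filter_upwards [hU.mem_nhds hqU] with p hp
        rw [hq]
        exact hall p hp
      filter_upwards [harm_min hMPL (hu q hqU) h1, hU.mem_nhds hqU] with p hp hpU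
      exact ⟨hpU, hp.trans hq⟩
  have h1 := hZ.eq_univ ⟨q₁, hq₁.1, rfl⟩
  rw [Set.eq_univ_iff_forall] at h1 ⊢
  exact fun q => (h1 q).1

theorem harm_sub {u v : OnePoint ℂ → ℝ} {q : OnePoint ℂ} (hu : HarmS u q) (hv : HarmS v q) :
    HarmS (fun p => u p - v p) q := by
  rcases hu with ⟨z, rfl, hz⟩ | ⟨rfl, hz⟩
  · rcases hv with ⟨z', h, hz'⟩ | ⟨h, _⟩
    · rw [OnePoint.coe_eq_coe] at h
      subst h
      exact Or.inl ⟨z, rfl, hz.sub hz'⟩
    · exact absurd h (OnePoint.coe_ne_infty _)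
  · rcases hv with ⟨z', h, _⟩ | ⟨_, hz'⟩
    · exact absurd h (OnePoint.infty_ne_coe _)
    · exact Or.inr ⟨rfl, hz.sub hz'⟩

theorem harm_congr {u v : OnePoint ℂ → ℝ} {q : OnePoint ℂ} (hu : HarmS u q)
    (h : ∀ᶠ p in 𝓝 q, v p = u p) : HarmS v q := by
  rcases hu with ⟨z, rfl, hz⟩ | ⟨rfl, hz⟩
  · rw [← map_coe, eventually_map] at h
    exact Or.inl ⟨z, rfl, (harmonicAt_congr_nhds h).2 hz⟩
  · have h' : ∀ᶠ w in 𝓝 (0 : ℂ), v (inv1 w) = u (inv1 w) := tend_inv1.eventually h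
    exact Or.inr ⟨rfl, (harmonicAt_congr_nhds h').2 hz⟩

/-- the value of the regular part at the pole -/
theorem pole_val {a : ℂ} {g : OnePoint ℂ → ℝ} {r : ℝ} {H : ℂ → ℝ}
    (hH : HarmonicAt H a) (hg : ∀ᶠ z in 𝓝[≠] a, g ((z : ℂ) : OnePoint ℂ) = H z - Real.log ‖z - a‖)
    (hr : Tendsto (fun z : ℂ => g (z : OnePoint ℂ) + Real.log ‖z - a‖) (𝓝[≠] a)
      (𝓝 (Real.log r))) : H a = Real.log r := by
  have h1 : Tendsto H (𝓝[≠] a) (𝓝 (H a)) := hH.1.continuousAt.tendsto.mono_left nhdsWithin_le_nhds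
  refine tendsto_nhds_unique (h1.congr' ?_) hr
  filter_upwards [hg] with z hz
  rw [hz]
  ring

/-- the Green function tends to infinity at the pole -/
theorem pole_pos {a : ℂ} {g : OnePoint ℂ → ℝ} {H : ℂ → ℝ} (hH : HarmonicAt H a)
    (hg : ∀ᶠ z in 𝓝[≠] a, g ((z : ℂ) : OnePoint ℂ) = H z - Real.log ‖z - a‖) :
    ∀ᶠ p : OnePoint ℂ in 𝓝 (a : OnePoint ℂ), p = (a : OnePoint ℂ) ∨ 0 < g p := by
  rw [← map_coe, eventually_map]
  have h1 : Tendsto H (𝓝[≠] a) (𝓝 (H a)) := hH.1.continuousAt.tendsto.mono_left nhdsWithin_le_nhds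
  have h2 : Tendsto (fun z : ℂ => -Real.log ‖z - a‖) (𝓝[≠] a) atTop := by
    have h3 : Tendsto (fun z : ℂ => ‖z - a‖) (𝓝[≠] a) (𝓝[>] 0) := by
      rw [tendsto_nhdsWithin_iff]
      refine ⟨?_, ?_⟩
      · have h4 : Tendsto (fun z : ℂ => ‖z - a‖) (𝓝 a) (𝓝 ‖a - a‖) :=
          ((continuous_id.sub continuous_const).norm).tendsto a
        rw [sub_self, norm_zero] at h4
        exact h4.mono_left nhdsWithin_le_nhds
      · filter_upwards [self_mem_nhdsWithin] with z hz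
        exact norm_pos_iff.2 (sub_ne_zero.2 hz)
    exact tendsto_neg_atBot_atTop.comp (Real.tendsto_log_nhdsGT_zero.comp h3)
  have h3 := h1.add_atTop h2
  have h4 : ∀ᶠ z : ℂ in 𝓝[≠] a, 0 < g (z : OnePoint ℂ) := by
    filter_upwards [h3.eventually_gt_atTop 0, hg] with z hz hz'
    rw [hz']
    linarith
  rw [eventually_nhdsWithin_iff] at h4
  filter_upwards [h4] with z hz
  by_cases h : z = a
  · exact Or.inl (by rw [h])
  · exact Or.inr (hz h)

/-- the Green function is nonnegative -/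
theorem green_nonneg (hMPL : T_MPL) {B : Set (OnePoint ℂ)} {a : ℂ} {g : OnePoint ℂ → ℝ}
    (hB : IsOpen B) (hg : IsGreen B a g) : ∀ q ∈ B, q ≠ (a : OnePoint ℂ) → 0 ≤ g q := by
  intro q₀ hq₀ hq₀a
  by_contra hneg
  push Not at hneg
  have hU : IsOpen (B ∩ {(a : OnePoint ℂ)}ᶜ) := hB.inter isOpen_compl_singleton
  have h1 := min_univ hMPL hU (u := g) (fun q hq => hg.harm q hq.1 hq.2) ⟨hq₀, hq₀a⟩ ?_
  · have h2 : (a : OnePoint ℂ) ∈ B ∩ {(a : OnePoint ℂ)}ᶜ := h1 ▸ Set.mem_univ _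
    exact h2.2 rfl
  · rw [← closure_subset_iff_isClosed]
    intro q hq
    have hfr : ∃ᶠ p in 𝓝 q, p ∈ {q | q ∈ B ∩ {(a : OnePoint ℂ)}ᶜ ∧ g q ≤ g q₀} :=
      mem_closure_iff_frequently.1 hq
    have hqa : q ≠ a := by
      rintro rfl
      obtain ⟨H, hH, hp⟩ := hg.pole
      obtain ⟨p, hp1, hp2⟩ := (hfr.and_eventually (pole_pos hH hp)).exists
      rcases hp2 with h | h
      · exact hp1.1.2 h
      · have := hp1.2
        linarith
    by_cases hqB : q ∈ B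
    · refine ⟨⟨hqB, hqa⟩, ?_⟩
      by_contra hlt
      push Not at hlt
      have h3 := (harm_cont (hg.harm q hqB hqa)).eventually (lt_mem_nhds hlt)
      obtain ⟨p, hp1, hp2⟩ := (hfr.and_eventually h3).exists
      exact absurd hp1.2 (not_le.2 hp2)
    · have hqf : q ∈ frontier B := by
        rw [hB.frontier_eq]
        refine ⟨?_, hqB⟩
        exact closure_mono (fun p hp => hp.1.1) hq
      have h3 := (hg.bdry q hqf).eventually (lt_mem_nhds hneg)
      rw [eventually_nhdsWithin_iff] at h3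
      obtain ⟨p, hp1, hp2⟩ := (hfr.and_eventually h3).exists
      exact absurd hp1.2 (not_le.2 (hp2 hp1.1.1))

theorem gir (hMPL : T_MPL) : T_GIR := by
  classical
  intro B a r hBo hBc haB hfr hr
  refine ⟨?_, fun b hb => hb ⟨B, subset_rfl, hBo, hBc, haB, hr⟩⟩
  rintro ρ ⟨D, hDB, hDo, hDc, haD, hρ⟩
  obtain ⟨hr0, gB, hgB, hlB⟩ := hr
  obtain ⟨hρ0, gD, hgD, hlD⟩ := hρ
  obtain ⟨HB, hHB, hpB⟩ := hgB.pole
  obtain ⟨HD, hHD, hpD⟩ := hgD.pole
  have hvB := pole_val hHB hpB hlB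
  have hvD := pole_val hHD hpD hlD
  by_contra hlt
  push Not at hlt
  have hlog : Real.log r - Real.log ρ < 0 := by
    have := Real.log_lt_log hr0 hlt
    linarith
  set u : OnePoint ℂ → ℝ := fun q => if q = (a : OnePoint ℂ) then Real.log r - Real.log ρ else
    gB q - gD q with hu
  have hua : u a = Real.log r - Real.log ρ := if_pos rfl
  have hune : ∀ q, q ≠ (a : OnePoint ℂ) → u q = gB q - gD q := fun q hq => if_neg hq
  have hharm : ∀ q ∈ D, HarmS u q := by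
    intro q hq
    by_cases hqa : q = a
    · subst hqa
      refine Or.inl ⟨a, rfl, ?_⟩
      refine (harmonicAt_congr_nhds ?_).2 (hHB.sub hHD)
      rw [eventually_nhdsWithin_iff] at hpB hpD
      filter_upwards [hpB, hpD] with z h1 h2
      by_cases hz : z = a
      · subst hz
        rw [hua, Pi.sub_apply, hvB, hvD]
      · rw [hune _ (fun h => hz (OnePoint.coe_injective h)), h1 hz, h2 hz, Pi.sub_apply]
        ring
    · refine harm_congr (harm_sub (hgB.harm q (hDB hq) hqa) (hgD.harm q hq hqa)) ?_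
      filter_upwards [isOpen_ne.mem_nhds hqa] with p hp
      exact hune p hp
  have h1 := min_univ hMPL hDo hharm haD ?_
  · have h2 : B = Set.univ := Set.eq_univ_of_univ_subset (h1 ▸ hDB)
    rw [h2, frontier_univ] at hfr
    exact Set.not_nonempty_empty hfr
  · rw [← closure_subset_iff_isClosed]
    intro q hq
    have hfq : ∃ᶠ p in 𝓝 q, p ∈ {q | q ∈ D ∧ u q ≤ u a} := mem_closure_iff_frequently.1 hq
    by_cases hqD : q ∈ D
    · refine ⟨hqD, ?_⟩
      by_contra hlt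
      push Not at hlt
      have h3 := (harm_cont (hharm q hqD)).eventually (lt_mem_nhds hlt)
      obtain ⟨p, hp1, hp2⟩ := (hfq.and_eventually h3).exists
      exact absurd hp1.2 (not_le.2 hp2)
    · exfalso
      have hqf : q ∈ frontier D := by
        rw [hDo.frontier_eq]
        exact ⟨closure_mono (fun p hp => hp.1) hq, hqD⟩
      have hqa : q ≠ a := fun h => hqD (h ▸ haD)
      have h3 : ∀ᶠ p in 𝓝[D] q, gD p < -(Real.log r - Real.log ρ) :=
        (hgD.bdry q hqf).eventually (gt_mem_nhds (by linarith))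
      rw [eventually_nhdsWithin_iff] at h3
      obtain ⟨p, hp1, hp2, hp3⟩ :=
        (hfq.and_eventually (h3.and (isOpen_ne.mem_nhds hqa))).exists
      have h4 := hp1.2
      rw [hua, hune p hp3] at h4
      have h5 := green_nonneg hMPL hBo hgB p (hDB hp1.1) hp3
      have h6 := hp2 hp1.1
      linarith

end Pool.Agent.H21.IR
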