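import Pool.Agent.H86.IR.Targets1

/-!
# Module SRT of the board ir_modules (MP_c11efe_an): sorting the poles
-/

set_option autoImplicit false

open Complex Topology Filter
open scoped OnePoint

namespace Pool.Agent.H21.IR

open Pool.Agent.H86.IR

/-- extension of a function on `Fin n` -/
noncomputable def xt {n : ℕ} (u : Fin n → ℝ) (k : ℕ) : ℝ := if h : k < n then u ⟨k, h⟩ else 0

theorem xt_fin {n : ℕ} (u : Fin n → ℝ) (k : Fin n) : xt u k = u k := by
  unfold xt
  rw [dif_pos k.2]

theorem srt (hES : T_ES) : T_SRT := by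
  intro n B a r hn hA hr
  have hinj : Function.Injective fun k => (a k).re := by
    intro j k h
    by_contra hne
    have h1 : a j = a k := Complex.ext h (by rw [(hA.seg j).1, (hA.seg k).1])
    have h2 := hA.dis hne
    have h3 := hA.mem j
    rw [h1] at h3
    exact Set.disjoint_left.1 h2 h3 (hA.mem k)
  set σ := Tuple.sort fun k => (a k).re with hσ
  have hmono : StrictMono fun k => (a (σ k)).re := by
    have h1 : Monotone fun k => (a (σ k)).re := Tuple.monotone_sort fun k => (a k).re
    have h2 : Function.Injective fun k => (a (σ k)).re := hinj.comp σ.injective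
    exact h1.strictMono_of_injective h2
  refine ⟨xt fun k => (a (σ k)).re, xt fun k => Real.log (r (σ k)), ⟨?_, ?_⟩, ?_, ?_⟩
  · intro i j hij hj
    unfold xt
    rw [dif_pos (hij.trans hj), dif_pos hj]
    exact hmono (by exact hij)
  · intro α hα
    have h1 : ∑ k : Fin n, α k = 0 := by
      rw [← hα, Finset.sum_range]
    have h2 := hES n (fun k => B (σ k)) (fun k => a (σ k)) (fun k => r (σ k)) hn
      (fun k => (hA.op _).1) (fun j k hjk => hA.dis fun h => hjk (σ.injective h))
      (fun k => hA.mem _) (fun k => hr _) (fun k => α k) h1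
    rw [Finset.sum_range, Finset.sum_range]
    refine le_of_eq_of_le ?_ h2
    congr 1
    · refine Finset.sum_congr rfl fun k _ => ?_
      rw [xt_fin]
    · refine Finset.sum_congr rfl fun k _ => ?_
      rw [Finset.sum_range]
      refine Finset.sum_congr rfl fun j _ => ?_
      rw [xt_fin, xt_fin]
      congr 2
      have h3 : a (σ k) - a (σ j) = (((a (σ k)).re - (a (σ j)).re : ℝ) : ℂ) := by
        apply Complex.ext
        · simp
        · simp [(hA.seg (σ k)).1, (hA.seg (σ j)).1]
      rw [h3, Complex.norm_real, Real.norm_eq_abs]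
  · unfold xt
    rw [dif_pos (by omega), dif_pos (by omega)]
    have h1 := (abs_le.1 (hA.seg (σ ⟨n - 1, by omega⟩)).2).2
    have h2 := (abs_le.1 (hA.seg (σ ⟨0, by omega⟩)).2).1
    linarith
  · rw [Finset.sum_range]
    rw [Real.log_prod (fun k _ => (hr k).1.ne')]
    rw [← Equiv.sum_comp σ fun k => Real.log (r k)]
    refine Finset.sum_congr rfl fun k _ => ?_
    rw [xt_fin]

end Pool.Agent.H21.IR
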