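import Pool.Agent.H86.IR.Targets2

/-!
# Module STR of the board ir_modules (MP_c11efe_an): the inner radius of a strip
-/

set_option autoImplicit false

open Complex Topology Filter InnerProductSpace
open scoped OnePoint

namespace Pool.Agent.H21.IR

open Pool.Agent.H86.IR

theorem sq_norm_sin (u : ℂ) : ‖sin u‖ ^ 2 = Real.sin u.re ^ 2 + Real.sinh u.im ^ 2 := by
  rw [← Complex.normSq_eq_norm_sq, Complex.sin_eq]
  have e : sin (u.re : ℂ) * cosh (u.im : ℂ) + cos (u.re : ℂ) * sinh (u.im : ℂ) * I =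
      ((Real.sin u.re * Real.cosh u.im : ℝ) : ℂ) + ((Real.cos u.re * Real.sinh u.im : ℝ) : ℂ) * I := by
    push_cast
    rfl
  rw [e, Complex.normSq_add_mul_I]
  have h1 := Real.cosh_sq u.im
  have h2 := Real.sin_sq_add_cos_sq u.re
  linear_combination Real.sin u.re ^ 2 * h1 + Real.sinh u.im ^ 2 * h2

theorem sq_norm_cos (u : ℂ) : ‖cos u‖ ^ 2 = Real.cos u.re ^ 2 + Real.sinh u.im ^ 2 := by
  rw [← Complex.normSq_eq_norm_sq, Complex.cos_eq]
  have e : cos (u.re : ℂ) * cosh (u.im : ℂ) - sin (u.re : ℂ) * sinh (u.im : ℂ) * I =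
      ((Real.cos u.re * Real.cosh u.im : ℝ) : ℂ) + ((-(Real.sin u.re * Real.sinh u.im) : ℝ) : ℂ) * I := by
    push_cast
    ring
  rw [e, Complex.normSq_add_mul_I]
  have h1 := Real.cosh_sq u.im
  have h2 := Real.sin_sq_add_cos_sq u.re
  linear_combination Real.cos u.re ^ 2 * h1 + Real.sinh u.im ^ 2 * h2

/-- `sin u / u` -/
noncomputable def sc (u : ℂ) : ℂ := dslope sin 0 u

theorem sc_diff : Differentiable ℂ sc := by
  have h := (Complex.differentiableOn_dslope (f := sin) (s := Set.univ) (c := 0) univ_mem).2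
    Complex.differentiable_sin.differentiableOn
  exact differentiableOn_univ.1 h

theorem sc_zero : sc 0 = 1 := by
  unfold sc
  rw [dslope_same, Complex.deriv_sin, Complex.cos_zero]

theorem sin_eq_sc (u : ℂ) : sin u = u * sc u := by
  unfold sc
  have h := sub_smul_dslope sin 0 u
  rw [sub_zero, Complex.sin_zero, sub_zero, smul_eq_mul] at h
  exact h.symm

section

variable (a h : ℝ)

/-- the variable of the tangent -/
noncomputable def uu (z : ℂ) : ℂ := ((Real.pi / (4 * h) : ℝ) : ℂ) * (z - a)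

theorem uu_re (z : ℂ) : (uu a h z).re = Real.pi / (4 * h) * (z.re - a) := by
  unfold uu
  rw [Complex.re_ofReal_mul, Complex.sub_re, Complex.ofReal_re]

theorem uu_im (z : ℂ) : (uu a h z).im = Real.pi / (4 * h) * z.im := by
  unfold uu
  rw [Complex.im_ofReal_mul, Complex.sub_im, Complex.ofReal_im, sub_zero]

theorem uu_an (z : ℂ) : AnalyticAt ℂ (uu a h) z := by
  unfold uu
  fun_prop

/-- the Green function -/
noncomputable def GG (z : ℂ) : ℝ := Real.log ‖cos (uu a h z)‖ - Real.log ‖sin (uu a h z)‖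

end

section

variable {a h : ℝ}

theorem cos_ne {z : ℂ} (hh : 0 < h) (hz : |z.re - a| ≤ h) : cos (uu a h z) ≠ 0 := by
  intro h0
  have h1 := sq_norm_cos (uu a h z)
  rw [h0, norm_zero, uu_re] at h1
  have h2 : 0 < Real.cos (Real.pi / (4 * h) * (z.re - a)) := by
    have hpi := Real.pi_pos
    have h3 : |Real.pi / (4 * h) * (z.re - a)| ≤ Real.pi / 4 := by
      rw [abs_mul, abs_of_pos (by positivity)]
      calc Real.pi / (4 * h) * |z.re - a| ≤ Real.pi / (4 * h) * h :=
            mul_le_mul_of_nonneg_left hz (by positivity)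
        _ = Real.pi / 4 := by field_simp
    obtain ⟨h4, h5⟩ := abs_le.1 h3
    exact Real.cos_pos_of_mem_Ioo ⟨by linarith, by linarith⟩
  nlinarith [sq_nonneg (Real.sinh (uu a h z).im)]

theorem sin_ne {z : ℂ} (hh : 0 < h) (hz : |z.re - a| ≤ h) (hza : z ≠ a) :
    sin (uu a h z) ≠ 0 := by
  intro h0
  have hpi := Real.pi_pos
  have h1 := sq_norm_sin (uu a h z)
  rw [h0, norm_zero, uu_re] at h1
  have hs : Real.sinh (uu a h z).im = 0 := by
    have h2 := sq_nonneg (Real.sin (Real.pi / (4 * h) * (z.re - a)))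
    have h3 := sq_nonneg (Real.sinh (uu a h z).im)
    have h4 : Real.sinh (uu a h z).im ^ 2 = 0 := by linarith
    exact pow_eq_zero_iff (two_ne_zero) |>.1 h4
  have hs' : Real.sin (Real.pi / (4 * h) * (z.re - a)) = 0 := by
    rw [hs] at h1
    have h4 : Real.sin (Real.pi / (4 * h) * (z.re - a)) ^ 2 = 0 := by linarith
    exact pow_eq_zero_iff (two_ne_zero) |>.1 h4
  have h3 : |Real.pi / (4 * h) * (z.re - a)| ≤ Real.pi / 4 := by
    rw [abs_mul, abs_of_pos (by positivity)]
    calc Real.pi / (4 * h) * |z.re - a| ≤ Real.pi / (4 * h) * h :=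
          mul_le_mul_of_nonneg_left hz (by positivity)
      _ = Real.pi / 4 := by field_simp
  obtain ⟨h4, h5⟩ := abs_le.1 h3
  have h6 : Real.pi / (4 * h) * (z.re - a) = 0 :=
    (Real.sin_eq_zero_iff_of_lt_of_lt (by linarith) (by linarith)).1 hs'
  have h7 : (uu a h z).im = 0 := Real.sinh_eq_zero.1 hs
  rw [uu_im] at h7
  have h8 : Real.pi / (4 * h) ≠ 0 := by positivity
  apply hza
  apply Complex.ext
  · rw [Complex.ofReal_re]
    have := (mul_eq_zero.1 h6).resolve_left h8
    linarith
  · rw [Complex.ofReal_im]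
    exact (mul_eq_zero.1 h7).resolve_left h8

/-- bounds for the Green function far away -/
theorem GG_bound {z : ℂ} (hh : 0 < h) (hz : |z.re - a| < h) (him : z.im ≠ 0) :
    0 ≤ GG a h z ∧ GG a h z ≤ 8 * h ^ 2 / (Real.pi ^ 2 * z.im ^ 2) := by
  have hpi := Real.pi_pos
  have hza : z ≠ a := by
    rintro rfl
    exact him (Complex.ofReal_im a)
  have hc := cos_ne hh hz.le
  have hs := sin_ne hh hz.le hza
  have hc' : 0 < ‖cos (uu a h z)‖ ^ 2 := by positivity
  have hs' : 0 < ‖sin (uu a h z)‖ ^ 2 := by positivity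
  have hG : GG a h z = 1 / 2 * Real.log (‖cos (uu a h z)‖ ^ 2 / ‖sin (uu a h z)‖ ^ 2) := by
    unfold GG
    rw [Real.log_div hc'.ne' hs'.ne', Real.log_pow, Real.log_pow]
    push_cast
    ring
  have h1 := sq_norm_cos (uu a h z)
  have h2 := sq_norm_sin (uu a h z)
  have h3 : |Real.pi / (4 * h) * (z.re - a)| ≤ Real.pi / 4 := by
    rw [abs_mul, abs_of_pos (by positivity)]
    calc Real.pi / (4 * h) * |z.re - a| ≤ Real.pi / (4 * h) * h :=
          mul_le_mul_of_nonneg_left hz.le (by positivity)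
      _ = Real.pi / 4 := by field_simp
  obtain ⟨h4, h5⟩ := abs_le.1 h3
  have h6 : 0 ≤ Real.cos (2 * (uu a h z).re) := by
    rw [uu_re]
    exact Real.cos_nonneg_of_mem_Icc ⟨by linarith, by linarith⟩
  have h7 : Real.cos (2 * (uu a h z).re) = Real.cos (uu a h z).re ^ 2 -
      Real.sin (uu a h z).re ^ 2 := by
    rw [Real.cos_two_mul]
    linear_combination Real.sin_sq_add_cos_sq (uu a h z).re
  have h8 := Real.cos_le_one (2 * (uu a h z).re)
  have h9 : (Real.pi / (4 * h) * z.im) ^ 2 ≤ Real.sinh (uu a h z).im ^ 2 := by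
    rw [uu_im]
    rw [sq_le_sq]
    rcases le_total 0 (Real.pi / (4 * h) * z.im) with h10 | h10
    · rw [abs_of_nonneg h10, abs_of_nonneg (Real.sinh_nonneg_iff.2 h10)]
      exact Real.self_le_sinh_iff.2 h10
    · rw [abs_of_nonpos h10, abs_of_nonpos (Real.sinh_nonpos_iff.2 h10)]
      exact neg_le_neg (Real.sinh_le_self_iff.2 h10)
  have h10 : 0 < (Real.pi / (4 * h) * z.im) ^ 2 := by positivity
  have h11 : (Real.pi / (4 * h) * z.im) ^ 2 ≤ ‖sin (uu a h z)‖ ^ 2 := by
    rw [h2]
    nlinarith [sq_nonneg (Real.sin (uu a h z).re)]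
  rw [hG]
  constructor
  · have h12 : 1 ≤ ‖cos (uu a h z)‖ ^ 2 / ‖sin (uu a h z)‖ ^ 2 := by
      rw [one_le_div hs', h1, h2]
      linarith
    have := Real.log_nonneg h12
    linarith
  · have h12 := Real.log_le_sub_one_of_pos (div_pos hc' hs')
    have h13 : ‖cos (uu a h z)‖ ^ 2 / ‖sin (uu a h z)‖ ^ 2 - 1 ≤
        1 / (Real.pi / (4 * h) * z.im) ^ 2 := by
      rw [div_sub_one hs'.ne']
      have h14 : ‖cos (uu a h z)‖ ^ 2 - ‖sin (uu a h z)‖ ^ 2 ≤ 1 := by
        rw [h1, h2]
        linarith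
      calc (‖cos (uu a h z)‖ ^ 2 - ‖sin (uu a h z)‖ ^ 2) / ‖sin (uu a h z)‖ ^ 2
          ≤ 1 / ‖sin (uu a h z)‖ ^ 2 := div_le_div_of_nonneg_right h14 hs'.le
        _ ≤ 1 / (Real.pi / (4 * h) * z.im) ^ 2 := one_div_le_one_div_of_le h10 h11
    have h15 : 1 / 2 * (1 / (Real.pi / (4 * h) * z.im) ^ 2) =
        8 * h ^ 2 / (Real.pi ^ 2 * z.im ^ 2) := by
      field_simp
      ring
    rw [← h15]
    linarith

end

theorem str (hMKG : T_MKG) : T_STR := by
  intro a h hh
  have hpi := Real.pi_pos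
  have hcont : Continuous fun z : ℂ => |z.re - a| :=
    (Complex.continuous_re.sub continuous_const).abs
  have hharm : ∀ z : ℂ, cos (uu a h z) ≠ 0 → HarmonicAt (fun z => Real.log ‖cos (uu a h z)‖) z := by
    intro z hz
    exact AnalyticAt.harmonicAt_log_norm (f := fun z => cos (uu a h z))
      (by have := uu_an a h z; fun_prop) hz
  refine hMKG {z : ℂ | |z.re - a| < h} a (GG a h)
    (fun z => Real.log ‖cos (uu a h z)‖ - Real.log ‖sc (uu a h z)‖ - Real.log (Real.pi / (4 * h)))
    (4 * h / Real.pi) (isOpen_lt hcont continuous_const) (by simpa using hh) (by positivity)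
    ?_ ?_ ?_ ?_ ?_ ?_
  · intro z hz hza
    exact (hharm z (cos_ne hh (le_of_lt hz))).sub
      (AnalyticAt.harmonicAt_log_norm (f := fun z => sin (uu a h z))
        (by have := uu_an a h z; fun_prop) (sin_ne hh (le_of_lt hz) hza))
  · have hu0 : uu a h a = 0 := by
      unfold uu
      rw [sub_self, mul_zero]
    refine HarmonicAt.sub (HarmonicAt.sub (hharm a ?_) ?_) (harmonicAt_const _)
    · rw [hu0, Complex.cos_zero]
      exact one_ne_zero
    · refine AnalyticAt.harmonicAt_log_norm (f := fun z => sc (uu a h z)) ?_ ?_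
      · exact (sc_diff.analyticAt _).fun_comp (uu_an a h _)
      · rw [hu0, sc_zero]
        exact one_ne_zero
  · have hu0 : uu a h a = 0 := by
      unfold uu
      rw [sub_self, mul_zero]
    simp only [hu0, Complex.cos_zero, sc_zero, norm_one, Real.log_one, sub_zero, zero_sub]
    rw [← Real.log_inv, inv_div]
  · have hu : ∀ᶠ z in 𝓝[≠] (a : ℂ), sc (uu a h z) ≠ 0 := by
      have h1 : ContinuousAt (fun z => sc (uu a h z)) a :=
        ((sc_diff.analyticAt _).fun_comp (uu_an a h _)).continuousAt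
      have h2 : sc (uu a h a) ≠ 0 := by
        unfold uu
        rw [sub_self, mul_zero, sc_zero]
        exact one_ne_zero
      exact (h1.eventually_ne h2).filter_mono nhdsWithin_le_nhds
    filter_upwards [hu, self_mem_nhdsWithin] with z hz hza
    have hza' : z - a ≠ 0 := sub_ne_zero.2 hza
    unfold GG
    have h3 : ‖sin (uu a h z)‖ = Real.pi / (4 * h) * ‖z - a‖ * ‖sc (uu a h z)‖ := by
      rw [sin_eq_sc, norm_mul]
      congr 1
      unfold uu
      rw [norm_mul, Complex.norm_real, Real.norm_eq_abs, abs_of_pos (by positivity)]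
    have h4 : Real.pi / (4 * h) ≠ 0 := by positivity
    rw [h3, Real.log_mul (mul_ne_zero h4 (norm_ne_zero_iff.2 hza')) (norm_ne_zero_iff.2 hz),
      Real.log_mul h4 (norm_ne_zero_iff.2 hza')]
    ring
  · intro z hz
    have hz1 : |z.re - a| = h := by
      rw [frontier, Set.mem_sdiff] at hz
      have h1 : |z.re - a| ≤ h := by
        have : closure {z : ℂ | |z.re - a| < h} ⊆ {z : ℂ | |z.re - a| ≤ h} :=
          closure_minimal (fun w (hw : |w.re - a| < h) => (le_of_lt hw : |w.re - a| ≤ h))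
            (isClosed_le hcont continuous_const)
        exact this hz.1
      refine le_antisymm h1 ?_
      by_contra h2
      push Not at h2
      apply hz.2
      rw [(isOpen_lt hcont continuous_const).interior_eq]
      exact h2
    have hza : z ≠ a := by
      rintro rfl
      rw [Complex.ofReal_re, sub_self, abs_zero] at hz1
      exact hh.ne hz1
    have hc := cos_ne hh hz1.le
    have hs := sin_ne hh hz1.le hza
    have hG : GG a h z = 0 := by
      have h1 := sq_norm_cos (uu a h z)
      have h2 := sq_norm_sin (uu a h z)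
      have h3 : Real.cos (uu a h z).re ^ 2 = Real.sin (uu a h z).re ^ 2 := by
        have h4 : Real.cos (2 * (uu a h z).re) = 0 := by
          rw [uu_re]
          have h5 : |2 * (Real.pi / (4 * h) * (z.re - a))| = Real.pi / 2 := by
            rw [abs_mul, abs_mul, hz1, abs_of_pos (by positivity : (0 : ℝ) < 2),
              abs_of_pos (by positivity : 0 < Real.pi / (4 * h))]
            field_simp
            ring
          rw [← Real.cos_abs, h5, Real.cos_pi_div_two]
        have h7 : Real.cos (2 * (uu a h z).re) = Real.cos (uu a h z).re ^ 2 -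
            Real.sin (uu a h z).re ^ 2 := by
          rw [Real.cos_two_mul]
          linear_combination Real.sin_sq_add_cos_sq (uu a h z).re
        linarith
      have h4 : ‖cos (uu a h z)‖ = ‖sin (uu a h z)‖ := by
        rw [← sq_eq_sq₀ (norm_nonneg _) (norm_nonneg _), h1, h2, h3]
      unfold GG
      rw [h4, sub_self]
    have hcG : ContinuousAt (GG a h) z := by
      unfold GG
      have hu := (uu_an a h z).continuousAt
      exact ((Complex.continuous_cos.continuousAt.comp hu).norm.log (norm_ne_zero_iff.2 hc)).sub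
        ((Complex.continuous_sin.continuousAt.comp hu).norm.log (norm_ne_zero_iff.2 hs))
    have := hcG.tendsto
    rw [hG] at this
    exact this.mono_left nhdsWithin_le_nhds
  · have hlim : Tendsto (fun z : ℂ => 8 * h ^ 2 / (Real.pi ^ 2 * (‖z‖ - (|a| + h)) ^ 2))
        (cocompact ℂ) (𝓝 0) := by
      have h1 : Tendsto (fun z : ℂ => ‖z‖ - (|a| + h)) (cocompact ℂ) atTop :=
        tendsto_atTop_add_const_right _ _ (tendsto_norm_cocompact_atTop (E := ℂ))
      have h2 : Tendsto (fun z : ℂ => Real.pi ^ 2 * (‖z‖ - (|a| + h)) ^ 2) (cocompact ℂ) atTop :=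
        ((tendsto_pow_atTop two_ne_zero).comp h1).const_mul_atTop (by positivity)
      exact h2.const_div_atTop _
    have hev : ∀ᶠ z in cocompact ℂ ⊓ 𝓟 {z : ℂ | |z.re - a| < h},
        0 ≤ GG a h z ∧ GG a h z ≤ 8 * h ^ 2 / (Real.pi ^ 2 * (‖z‖ - (|a| + h)) ^ 2) := by
      have h1 : ∀ᶠ z in cocompact ℂ, |a| + h < ‖z‖ :=
        (tendsto_norm_cocompact_atTop (E := ℂ)).eventually_gt_atTop _
      rw [eventually_inf_principal]
      filter_upwards [h1] with z hz hzS
      have hzS' : |z.re - a| < h := hzS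
      have h2 : |z.re| < |a| + h := by
        calc |z.re| = |a + (z.re - a)| := by ring_nf
          _ ≤ |a| + |z.re - a| := abs_add_le _ _
          _ < |a| + h := by linarith
      have h3 := Complex.norm_le_abs_re_add_abs_im z
      have h4 : 0 < ‖z‖ - (|a| + h) := by linarith
      have h5 : ‖z‖ - (|a| + h) ≤ |z.im| := by linarith
      have h6 : z.im ≠ 0 := by
        intro h0
        rw [h0, abs_zero] at h5
        linarith
      obtain ⟨h7, h8⟩ := GG_bound hh hzS' h6
      refine ⟨h7, h8.trans ?_⟩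
      have h9 : (‖z‖ - (|a| + h)) ^ 2 ≤ z.im ^ 2 := by
        rw [← sq_abs z.im]
        exact pow_le_pow_left₀ h4.le h5 2
      gcongr
    exact tendsto_of_tendsto_of_tendsto_of_le_of_le' tendsto_const_nhds
      (hlim.mono_left inf_le_left) (hev.mono fun z h => h.1) (hev.mono fun z h => h.2)

end Pool.Agent.H21.IR
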